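import Mathlib
import Pool.Agent.Helper999.HSD.Main

set_option autoImplicit false

/-!
Symmetry of a decomposition of `K_50` into seven copies of the Hoffman-Singleton graph.
-/

namespace Pool.Agent.Results.MP_37fea8_co.AutOrder

/-- The Hoffman-Singleton graph: vertex `i` of the pentagon `P_j` is `(false, j, i)`, vertex `i` of
the pentagram `Q_k` is `(true, k, i)`, and vertex `i` of `P_j` is joined to vertex `i + j k` of
`Q_k`. -/
def HoffmanSingleton : SimpleGraph (Bool × ZMod 5 × ZMod 5) :=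
  SimpleGraph.fromRel (fun x y : Bool × ZMod 5 × ZMod 5 =>
    (x.1 = false ∧ y.1 = false ∧ x.2.1 = y.2.1 ∧ y.2.2 = x.2.2 + 1) ∨
    (x.1 = true ∧ y.1 = true ∧ x.2.1 = y.2.1 ∧ y.2.2 = x.2.2 + 2) ∨
    (x.1 = false ∧ y.1 = true ∧ y.2.2 = x.2.2 + x.2.1 * y.2.1))

/-- `G 0, …, G 6` is a decomposition of the complete graph on 50 vertices into seven copies of the
Hoffman-Singleton graph. -/
def IsDecomposition (G : Fin 7 → SimpleGraph (Fin 50)) : Prop :=
  (∀ i, Nonempty (HoffmanSingleton ≃g G i)) ∧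
  (∀ i j, i ≠ j → Disjoint (G i) (G j)) ∧
  (⨆ i, G i) = ⊤

/-- The permutation `g` of the 50 vertices maps every member of the decomposition onto a member. -/
def IsAutomorphism (G : Fin 7 → SimpleGraph (Fin 50)) (g : Equiv.Perm (Fin 50)) : Prop :=
  ∀ i, ∃ j, ∀ x y, (G i).Adj x y ↔ (G j).Adj (g x) (g y)

/-- For every decomposition of `K_50` into seven copies of the Hoffman-Singleton graph, every group
of automorphisms of the decomposition has order dividing `5 ^ 3 * 7 ^ 2 = 6125`; an automorphism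
`g ≠ 1` with `g ^ 7 = 1` fixes exactly one vertex, and one with `g ^ 5 = 1` fixes no vertex or
exactly five. -/
theorem result (G : Fin 7 → SimpleGraph (Fin 50)) (hG : IsDecomposition G) :
    (∀ Γ : Subgroup (Equiv.Perm (Fin 50)), (∀ g ∈ Γ, IsAutomorphism G g) →
      Nat.card Γ ∣ 5 ^ 3 * 7 ^ 2) ∧
    (∀ g : Equiv.Perm (Fin 50), IsAutomorphism G g → g ≠ 1 → g ^ 7 = 1 →
      {x | g x = x}.ncard = 1) ∧
    (∀ g : Equiv.Perm (Fin 50), IsAutomorphism G g → g ≠ 1 → g ^ 5 = 1 →
      {x | g x = x}.ncard = 0 ∨ {x | g x = x}.ncard = 5) := by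
  classical
  obtain ⟨h1, h2, h3⟩ := hG
  have hdec : Pool.Agent.Helper999.HSD.Dec G := by
    refine ⟨h1, ?_, ?_⟩
    · intro i j hij x y hx hy
      have := (h2 i j hij)
      rw [disjoint_iff_inf_le] at this
      have h4 : (G i ⊓ G j).Adj x y := ⟨hx, hy⟩
      exact absurd (this h4) (by simp)
    · intro x y hxy
      have h5 : (⨆ i, G i).Adj x y := by rw [h3]; exact hxy
      simpa using h5
  have hF : ∀ g : Equiv.Perm (Fin 50), {x | g x = x}.ncard = (Pool.Agent.Helper999.HSD.F g).card := by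
    intro g
    rw [← Set.ncard_coe_finset]
    congr 1
    ext x
    simp [Pool.Agent.Helper999.HSD.F]
  refine ⟨?_, ?_, ?_⟩
  · intro Γ hΓ
    exact Pool.Agent.Helper999.HSD.group_order G hdec Γ hΓ
  · intro g hg hne h7
    rw [hF]
    exact Pool.Agent.Helper999.HSD.fix7 hdec hg h7 hne
  · intro g hg hne h5
    rw [hF]
    exact Pool.Agent.Helper999.HSD.fix5 hdec hg h5 hne

end Pool.Agent.Results.MP_37fea8_co.AutOrder
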